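import Pool.Agent.H7.KSAT.Defs

/-!
# Module FIN: saturation under nonconcentration near affine subspaces
-/

set_option autoImplicit false

namespace Pool.KSAT

open Finset Real
open Pool.Agent.H49.Ent Pool.Agent.H32.Dense Pool.STK

namespace FIN

lemma law_congr {Ω S : Type} [Fintype Ω] {q : Ω → ℝ} (hq : ∀ w, 0 ≤ q w) {X Y : Ω → S}
    (h : ∀ w, 0 < q w → X w = Y w) (z : S) : law q X z = law q Y z := by
  classical
  unfold law
  refine Finset.sum_congr rfl fun w _ => ?_
  rcases (hq w).eq_or_lt with h0 | h0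
  · simp [← h0]
  · rw [h w h0]

lemma ite_inst {A : Prop} (h h' : Decidable A) (x y : ℝ) :
    @ite ℝ A h x y = @ite ℝ A h' x y := by
  rw [Subsingleton.elim h h']

/-- The mean of a natural number is at least `k + 1` times the probability that it is larger
than `k`. -/
lemma ex_ge {W : Type} [Fintype W] {q : W → ℝ} (hq : IsLaw q) (N : W → ℕ) (k : ℕ) :
    ((k : ℝ) + 1) * (1 - ∑ w, if N w ≤ k then q w else 0) ≤ Ex q (fun w => (N w : ℝ)) := by
  have h1 : (1 : ℝ) - (∑ w, if N w ≤ k then q w else 0) =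
      ∑ w, (q w - if N w ≤ k then q w else 0) := by
    rw [Finset.sum_sub_distrib, hq.sum_one]
  rw [h1, Finset.mul_sum]
  unfold Ex
  refine Finset.sum_le_sum fun w _ => ?_
  have h0 := hq.nonneg w
  split_ifs with h
  · rw [sub_self, mul_zero]
    positivity
  · rw [sub_zero, mul_comm]
    have h1 : ((k : ℝ) + 1) ≤ N w := by
      exact_mod_cast (not_le.mp h)
    exact mul_le_mul_of_nonneg_left h1 h0

end FIN

theorem saturation_thm : SatStmt → TransferStmt → QprStmt → GeoStmt → RkStmt →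
    SaturationStmt := by
  intro hsat htr hqpr hgeo _ m n k hkn
  classical
  have : Nonempty (Fin n × Bool) := ⟨(⟨k, hkn⟩, true)⟩
  obtain ⟨C, hC0, hC⟩ := hsat m n
  refine ⟨C, hC0, ?_⟩
  intro Ω β _ p u d b K a ρ hp hd haK hρ hQ1 hnc
  obtain ⟨W, _, q, L, L', s, t0, x, b0, hch, hent, hrk⟩ := hC Ω β p u d b K a hp hd haK
  set δ : ℝ := n * (4 * epsK p u d b K + cc m) with hδ
  set Q : ℝ := (n : ℝ) ^ k * ρ ^ (n - k) with hQ
  have hn : (0 : ℝ) < n := by
    have : 0 < n := lt_of_le_of_lt (Nat.zero_le k) hkn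
    exact_mod_cast this
  have hQ0 : 0 < Q := by positivity
  have hlog : 0 < Real.log (1 / Q) := Real.log_pos ((one_lt_div hQ0).2 hQ1)
  -- the variables
  let Y : Fin n × Bool → W → (Fin m → ℤ) := fun i w =>
    bif i.2 then Fl d K (L' i.1 w) else Fl d K (L i.1 w)
  have hY : ∀ (i : Fin n × Bool) (z : β × (Fin m → ℤ)),
      law q (fun w => (b0 w, Y i w)) z = law p (fun l => (b l, Fl d K l)) z := by
    rintro ⟨i, t⟩ z
    cases t
    · have h1 := (hch.marg i).law (fun l => (b l, Fl d K l)) z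
      rw [← h1]
      refine FIN.law_congr hch.isLaw.nonneg (fun w hw => ?_) z
      show (b0 w, Fl d K (L i w)) = (b (L i w), Fl d K (L i w))
      rw [hch.labL w hw i]
    · have h1 := (hch.marg' i).law (fun l => (b l, Fl d K l)) z
      rw [← h1]
      refine FIN.law_congr hch.isLaw.nonneg (fun w hw => ?_) z
      show (b0 w, Fl d K (L' i w)) = (b (L' i w), Fl d K (L' i w))
      rw [hch.labL' w hw i]
  have hcard : (Fintype.card (Fin n × Bool) : ℝ) = 2 * n := by
    simp [Fintype.card_prod, mul_comm]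
  have hE : Fintype.card (Fin n × Bool) * CH p (Fl d K) b - δ ≤
      CH q (fun w i => Y i w) b0 := by
    have h1 : CH q (fun w i => (Fl d K (L i w), Fl d K (L' i w))) b0 ≤
        CH q (fun w i => Y i w) b0 := by
      refine CH_mono_left hch.isLaw.nonneg ?_
      intro w w' _ _ h
      obtain ⟨h2, h3⟩ := Prod.mk.inj h
      show (fun i => (Fl d K (L i w), Fl d K (L' i w))) =
        (fun i => (Fl d K (L i w'), Fl d K (L' i w')))
      funext i
      have h4 := congrFun h2 (i, false)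
      have h5 := congrFun h2 (i, true)
      exact Prod.ext h4 h5
    rw [hcard]
    linarith
  have hmass : ∀ l, 0 < p l → (∑ v : Fin n × Bool → Ω,
      if rk (2 ^ a) (fun i j => ((Fl d K (v (i, true)) j : ℤ) : ℝ) - (Fl d K (v (i, false)) j : ℤ)) ≤ k
        then ∏ i, cond p b (b l) (v i) else 0) ≤ Q := by
    intro l hl
    have hcl : IsLaw (cond p b (b l)) :=
      ⟨cond_nonneg hp.nonneg b (b l), sum_cond p b (law_pos hp.nonneg b hl).ne'⟩
    have h1 := hqpr m n k Ω (cond p b (b l)) (fun l j => ((Fl d K l j : ℤ) : ℝ)) (2 ^ a) ρ hcl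
      (by positivity) hkn.le ?_
    · exact h1
    intro v B
    refine le_trans (Finset.sum_le_sum fun l' _ => ?_)
      (hnc l hl (fun j => v j / 2 ^ K) (fun i j => B i j / 2 ^ K))
    have hc0 : 0 ≤ cond p b (b l) l' := cond_nonneg hp.nonneg b (b l) l'
    by_cases h : ∃ c : Fin k → ℝ, ∀ j, |((Fl d K l' j : ℤ) : ℝ) - v j - ∑ i, c i * B i j| ≤ 2 ^ a
    · rw [if_pos h, if_pos]
      obtain ⟨c, hc⟩ := h
      refine ⟨c, fun j => ?_⟩
      have h2 := (hgeo m K Ω u d hd).2.2.2.1 l' j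
      have h3 := hc j
      have hK : (0 : ℝ) < 2 ^ K := by positivity
      have ha1 : (1 : ℝ) ≤ 2 ^ a := one_le_pow₀ (by norm_num)
      have h4 : d l' j - v j / 2 ^ K - ∑ i, c i * (B i j / 2 ^ K) =
          (2 ^ K * d l' j - v j - ∑ i, c i * B i j) / 2 ^ K := by
        rw [sub_div, sub_div, mul_div_cancel_left₀ _ hK.ne', Finset.sum_div]
        simp_rw [mul_div_assoc]
      show |d l' j - v j / 2 ^ K - ∑ i, c i * (B i j / 2 ^ K)| ≤ 2 * 2 ^ a / 2 ^ K
      rw [h4, abs_div, abs_of_pos hK]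
      refine div_le_div_of_nonneg_right ?_ hK.le
      rw [abs_le] at h2 h3 ⊢
      constructor <;> linarith [h2.1, h2.2, h3.1, h3.2]
    · rw [if_neg h]
      split_ifs
      · exact hc0
      · exact le_rfl
  have htrans := htr Ω W β (Fin m → ℤ) (Fin n × Bool) p q (Fl d K) b Y b0 δ hp hch.isLaw hY hE
    (fun _ v => rk (2 ^ a) (fun i j => ((v (i, true) j : ℤ) : ℝ) - (v (i, false) j : ℤ)) ≤ k)
    Q hQ0 (fun l hl => le_trans (le_of_eq (Finset.sum_congr rfl fun v _ =>
      FIN.ite_inst _ _ _ _)) (hmass l hl))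
  set P : ℝ := ∑ w, if rk (2 ^ a)
    (fun i j => ((Fl d K (L' i w) j : ℤ) : ℝ) - (Fl d K (L i w) j : ℤ)) ≤ k then q w else 0 with hPdef
  have hP1 : P * Real.log (1 / Q) ≤ δ + Real.log 2 := by
    refine le_trans (le_of_eq ?_) htrans
    congr 1
    exact Finset.sum_congr rfl fun w _ => FIN.ite_inst _ _ _ _
  have hP2 : P ≤ (δ + Real.log 2) / Real.log (1 / Q) := by
    rw [le_div_iff₀ hlog]
    exact hP1
  have hex := FIN.ex_ge hch.isLaw (fun w => rk (2 ^ a)
    (fun i j => ((Fl d K (L' i w) j : ℤ) : ℝ) - (Fl d K (L i w) j : ℤ))) k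
  have ha0 : (0 : ℝ) ≤ a * Real.log 2 :=
    mul_nonneg (Nat.cast_nonneg _) (Real.log_nonneg (by norm_num))
  have h5 : ((k : ℝ) + 1) * (1 - (δ + Real.log 2) / Real.log (1 / Q)) ≤
      Ex q (fun w => (rk (2 ^ a)
        (fun i j => ((Fl d K (L' i w) j : ℤ) : ℝ) - (Fl d K (L i w) j : ℤ)) : ℝ)) := by
    refine le_trans ?_ hex
    refine mul_le_mul_of_nonneg_left ?_ (by positivity)
    linarith
  have h6 := mul_le_mul_of_nonneg_left h5 ha0
  have h7 : ((k : ℝ) + 1) * (a * Real.log 2) * (1 - (δ + Real.log 2) / Real.log (1 / Q)) =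
      a * Real.log 2 * (((k : ℝ) + 1) * (1 - (δ + Real.log 2) / Real.log (1 / Q))) := by ring
  rw [h7]
  linarith

end Pool.KSAT
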